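import Mathlib

set_option autoImplicit false

namespace Pool.Agent.X149.RMF

open Finset MeasureTheory
open scoped ComplexConjugate

/-- The product of the values over a finite set. -/
noncomputable def F (y : ℕ → ℂ) (T : Finset ℕ) : ℂ := ∏ p ∈ T, y p

/-- The product of the elements. -/
noncomputable def N (T : Finset ℕ) : ℝ := ∏ p ∈ T, (p : ℝ)

/-- The quadratic form. -/
noncomputable def Q (y : ℕ → ℂ) (P : Finset ℕ) : ℝ :=
  ∑ T ∈ P.powerset, ∑ U ∈ P.powerset, (F y T * conj (F y U)).re / max (N T) (N U)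

/-- The cross term. -/
noncomputable def B (y : ℕ → ℂ) (p : ℕ) (P : Finset ℕ) : ℂ :=
  ∑ T ∈ P.powerset, ∑ U ∈ P.powerset,
    (F y T * conj (F y U)) * (((max ((p : ℝ) * N T) (N U))⁻¹ : ℝ) : ℂ)

lemma F_insert (y : ℕ → ℂ) {p : ℕ} {T : Finset ℕ} (h : p ∉ T) : F y (insert p T) = y p * F y T := by
  unfold F; rw [prod_insert h]

lemma N_insert {p : ℕ} {T : Finset ℕ} (h : p ∉ T) : N (insert p T) = p * N T := by
  unfold N; rw [prod_insert h]

lemma Q_insert (y : ℕ → ℂ) {p : ℕ} {P : Finset ℕ} (h : p ∉ P) (hp : 0 < p) :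
    Q y (insert p P) = (1 + ‖y p‖ ^ 2 / p) * Q y P + 2 * (y p * B y p P).re := by
  have hp' : (0 : ℝ) < p := by exact_mod_cast hp
  have hT : ∀ T ∈ P.powerset, p ∉ T := fun T hT hpT => h (mem_powerset.1 hT hpT)
  set G : Finset ℕ → Finset ℕ → ℝ := fun T U => (F y T * conj (F y U)).re / max (N T) (N U) with hG
  have hsym : ∀ T U, G T U = G U T := by
    intro T U
    simp only [hG]
    rw [max_comm]
    congr 1
    rw [← Complex.conj_re]
    simp only [map_mul, Complex.conj_conj]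
    rw [mul_comm]
  have h1 : Q y (insert p P) = (∑ T ∈ P.powerset, ∑ U ∈ P.powerset, G T U) +
      (∑ T ∈ P.powerset, ∑ U ∈ P.powerset, G T (insert p U)) +
      ((∑ T ∈ P.powerset, ∑ U ∈ P.powerset, G (insert p T) U) +
      (∑ T ∈ P.powerset, ∑ U ∈ P.powerset, G (insert p T) (insert p U))) := by
    unfold Q
    rw [sum_powerset_insert h]
    simp only [sum_powerset_insert h, sum_add_distrib]
    rfl
  have h2 : (∑ T ∈ P.powerset, ∑ U ∈ P.powerset, G T (insert p U)) =
      ∑ T ∈ P.powerset, ∑ U ∈ P.powerset, G (insert p T) U := by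
    rw [sum_comm]
    exact sum_congr rfl fun T _ => sum_congr rfl fun U _ => hsym _ _
  have h3 : (∑ T ∈ P.powerset, ∑ U ∈ P.powerset, G (insert p T) U) = (y p * B y p P).re := by
    unfold B
    rw [mul_sum, Complex.re_sum]
    refine sum_congr rfl fun T hTT => ?_
    rw [mul_sum, Complex.re_sum]
    refine sum_congr rfl fun U hUU => ?_
    simp only [hG]
    rw [F_insert y (hT T hTT), N_insert (hT T hTT)]
    rw [show y p * (F y T * conj (F y U) * (((max ((p : ℝ) * N T) (N U))⁻¹ : ℝ) : ℂ)) =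
      (y p * F y T * conj (F y U)) * (((max ((p : ℝ) * N T) (N U))⁻¹ : ℝ) : ℂ) by ring]
    rw [Complex.re_mul_ofReal, div_eq_mul_inv]
  have h4 : (∑ T ∈ P.powerset, ∑ U ∈ P.powerset, G (insert p T) (insert p U)) =
      ‖y p‖ ^ 2 / p * ∑ T ∈ P.powerset, ∑ U ∈ P.powerset, G T U := by
    rw [mul_sum]
    refine sum_congr rfl fun T hTT => ?_
    rw [mul_sum]
    refine sum_congr rfl fun U hUU => ?_
    simp only [hG]
    rw [F_insert y (hT T hTT), N_insert (hT T hTT), F_insert y (hT U hUU), N_insert (hT U hUU),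
      ← mul_max_of_nonneg _ _ hp'.le]
    rw [show y p * F y T * conj (y p * F y U) = (y p * conj (y p)) * (F y T * conj (F y U)) by
      rw [map_mul]; ring]
    rw [Complex.mul_conj, Complex.normSq_eq_norm_sq, Complex.re_ofReal_mul]
    rw [mul_div_mul_comm]
  rw [h1, h2, h3, h4]
  have h5 : Q y P = ∑ T ∈ P.powerset, ∑ U ∈ P.powerset, G T U := rfl
  rw [h5]
  ring

/-- The truncated sum. -/
noncomputable def D (y : ℕ → ℂ) (P : Finset ℕ) (u : ℝ) : ℂ :=
  ∑ T ∈ P.powerset, if N T ≤ u then F y T else 0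

lemma sq_D (y : ℕ → ℂ) (P : Finset ℕ) (u : ℝ) : ‖D y P u‖ ^ 2 =
    ∑ T ∈ P.powerset, ∑ U ∈ P.powerset,
      (F y T * conj (F y U)).re * (if max (N T) (N U) ≤ u then 1 else 0) := by
  have h1 : ‖D y P u‖ ^ 2 = (D y P u * conj (D y P u)).re := by
    rw [Complex.mul_conj, Complex.normSq_eq_norm_sq, Complex.ofReal_re]
  rw [h1]
  unfold D
  rw [map_sum, sum_mul_sum, Complex.re_sum]
  refine sum_congr rfl fun T _ => ?_
  rw [Complex.re_sum]
  refine sum_congr rfl fun U _ => ?_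
  by_cases hT : N T ≤ u
  · by_cases hU : N U ≤ u
    · simp [hT, hU]
    · simp [hT, hU]
  · simp [hT]

lemma int_ind {a Y : ℝ} (ha : 1 ≤ a) (haY : a ≤ Y) :
    IntervalIntegrable (fun u : ℝ => (if a ≤ u then (1 : ℝ) else 0) / u ^ 2) volume 1 Y ∧
    ∫ u in (1 : ℝ)..Y, (if a ≤ u then (1 : ℝ) else 0) / u ^ 2 = 1 / a - 1 / Y := by
  have hY : 1 ≤ Y := ha.trans haY
  have hc : ContinuousOn (fun u : ℝ => (1 : ℝ) / u ^ 2) (Set.Icc 1 Y) := by
    refine ContinuousOn.div continuousOn_const (by fun_prop) fun u hu => ?_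
    have : 0 < u := by linarith [hu.1]
    positivity
  have hI : IntegrableOn (fun u : ℝ => (1 : ℝ) / u ^ 2) (Set.Ioc 1 Y) volume :=
    (hc.integrableOn_Icc).mono_set Set.Ioc_subset_Icc_self
  have he : (fun u : ℝ => (if a ≤ u then (1 : ℝ) else 0) / u ^ 2) =
      Set.indicator (Set.Ici a) (fun u : ℝ => (1 : ℝ) / u ^ 2) := by
    funext u
    by_cases h : a ≤ u
    · rw [Set.indicator_of_mem (by exact h), if_pos h]
    · rw [Set.indicator_of_notMem (by exact h), if_neg h, zero_div]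
  constructor
  · rw [he, intervalIntegrable_iff_integrableOn_Ioc_of_le hY]
    exact hI.indicator measurableSet_Ici
  · rw [he, intervalIntegral.integral_of_le hY, setIntegral_indicator measurableSet_Ici]
    have h1 : (∫ u in Set.Ioc 1 Y ∩ Set.Ici a, (1 : ℝ) / u ^ 2) = ∫ u in Set.Ioc a Y, (1 : ℝ) / u ^ 2 := by
      rcases ha.eq_or_lt with h | h
      · subst h
        congr 2
        ext u
        simp only [Set.mem_inter_iff, Set.mem_Ioc, Set.mem_Ici]
        constructor
        · rintro ⟨h, _⟩; exact h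
        · intro h; exact ⟨h, h.1.le⟩
      · rw [← integral_Icc_eq_integral_Ioc]
        congr 2
        ext u
        simp only [Set.mem_inter_iff, Set.mem_Ioc, Set.mem_Ici, Set.mem_Icc]
        constructor
        · rintro ⟨⟨_, h2⟩, h3⟩; exact ⟨h3, h2⟩
        · rintro ⟨h2, h3⟩; exact ⟨⟨by linarith, h3⟩, h2⟩
    rw [h1, ← intervalIntegral.integral_of_le haY]
    have h2 : ∀ u : ℝ, (1 : ℝ) / u ^ 2 = u ^ (-2 : ℤ) := by
      intro u
      rw [zpow_neg, one_div]
      norm_cast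
    simp only [h2]
    rw [integral_zpow]
    · norm_num
      ring
    · right
      refine ⟨by norm_num, ?_⟩
      rw [Set.uIcc_of_le haY]
      intro h
      linarith [h.1]

lemma one_le_N {T : Finset ℕ} (h : ∀ p ∈ T, 0 < p) : 1 ≤ N T := by
  unfold N
  have h1 : ∀ p ∈ T, (1 : ℝ) ≤ (p : ℝ) := fun p hp => by exact_mod_cast h p hp
  calc (1 : ℝ) = ∏ p ∈ T, (1 : ℝ) := by simp
    _ ≤ _ := prod_le_prod (fun _ _ => by norm_num) h1

/-- Exact value for long intervals. -/
lemma int_D (y : ℕ → ℂ) {P : Finset ℕ} (hP : ∀ p ∈ P, 0 < p) {Y : ℝ}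
    (hY : ∀ T ∈ P.powerset, N T ≤ Y) :
    IntervalIntegrable (fun u : ℝ => ‖D y P u‖ ^ 2 / u ^ 2) volume 1 Y ∧
    ∫ u in (1 : ℝ)..Y, ‖D y P u‖ ^ 2 / u ^ 2 ≤ Q y P := by
  have hN : ∀ T ∈ P.powerset, 1 ≤ N T := fun T hT =>
    one_le_N fun p hp => hP p (mem_powerset.1 hT hp)
  have hY1 : 1 ≤ Y := (hN ∅ (empty_mem_powerset P)).trans (hY ∅ (empty_mem_powerset P))
  have he : (fun u : ℝ => ‖D y P u‖ ^ 2 / u ^ 2) = fun u : ℝ =>
      ∑ T ∈ P.powerset, ∑ U ∈ P.powerset, (F y T * conj (F y U)).re *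
        ((if max (N T) (N U) ≤ u then 1 else 0) / u ^ 2) := by
    funext u
    rw [sq_D, sum_div]
    refine sum_congr rfl fun T _ => ?_
    rw [sum_div]
    exact sum_congr rfl fun U _ => by rw [mul_div_assoc]
  have hi : ∀ T ∈ P.powerset, ∀ U ∈ P.powerset, IntervalIntegrable (fun u : ℝ =>
      (F y T * conj (F y U)).re * ((if max (N T) (N U) ≤ u then (1 : ℝ) else 0) / u ^ 2))
      volume 1 Y := fun T hT U hU =>
    ((int_ind (le_max_of_le_left (hN T hT)) (max_le (hY T hT) (hY U hU))).1).const_mul _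
  have hi2 : ∀ T ∈ P.powerset, IntervalIntegrable (fun u : ℝ => ∑ U ∈ P.powerset,
      (F y T * conj (F y U)).re * ((if max (N T) (N U) ≤ u then (1 : ℝ) else 0) / u ^ 2))
      volume 1 Y := by
    intro T hT
    have h := IntervalIntegrable.sum P.powerset fun U hU => hi T hT U hU
    rw [Finset.sum_fn] at h
    exact h
  have hi3 : IntervalIntegrable (fun u : ℝ => ∑ T ∈ P.powerset, ∑ U ∈ P.powerset,
      (F y T * conj (F y U)).re * ((if max (N T) (N U) ≤ u then (1 : ℝ) else 0) / u ^ 2))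
      volume 1 Y := by
    have h := IntervalIntegrable.sum P.powerset fun T hT => hi2 T hT
    rw [Finset.sum_fn] at h
    exact h
  rw [he]
  constructor
  · exact hi3
  · rw [intervalIntegral.integral_finsetSum hi2]
    have h1 : ∀ T ∈ P.powerset, (∫ u in (1 : ℝ)..Y, ∑ U ∈ P.powerset, (F y T * conj (F y U)).re *
        ((if max (N T) (N U) ≤ u then (1 : ℝ) else 0) / u ^ 2)) =
        ∑ U ∈ P.powerset, (F y T * conj (F y U)).re * (1 / max (N T) (N U) - 1 / Y) := by
      intro T hT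
      rw [intervalIntegral.integral_finsetSum fun U hU => hi T hT U hU]
      refine sum_congr rfl fun U hU => ?_
      rw [intervalIntegral.integral_const_mul,
        (int_ind (le_max_of_le_left (hN T hT)) (max_le (hY T hT) (hY U hU))).2]
    rw [sum_congr rfl h1]
    have h2 : ∑ T ∈ P.powerset, ∑ U ∈ P.powerset,
        (F y T * conj (F y U)).re * (1 / max (N T) (N U) - 1 / Y) =
        Q y P - ‖∑ T ∈ P.powerset, F y T‖ ^ 2 / Y := by
      have h3 : ‖∑ T ∈ P.powerset, F y T‖ ^ 2 =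
          ∑ T ∈ P.powerset, ∑ U ∈ P.powerset, (F y T * conj (F y U)).re := by
        have h4 := sq_D y P Y
        have h5 : D y P Y = ∑ T ∈ P.powerset, F y T :=
          sum_congr rfl fun T hT => by rw [if_pos (hY T hT)]
        rw [h5] at h4
        rw [h4]
        exact sum_congr rfl fun T hT => sum_congr rfl fun U hU => by
          rw [if_pos (max_le (hY T hT) (hY U hU)), mul_one]
      rw [h3, sum_div, Q, ← sum_sub_distrib]
      refine sum_congr rfl fun T _ => ?_
      rw [sum_div, ← sum_sub_distrib]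
      refine sum_congr rfl fun U _ => ?_
      ring
    rw [h2]
    have : 0 ≤ ‖∑ T ∈ P.powerset, F y T‖ ^ 2 / Y := by positivity
    linarith

lemma int_D_le (y : ℕ → ℂ) {P : Finset ℕ} (hP : ∀ p ∈ P, 0 < p) {x : ℝ} (hx : 1 ≤ x) :
    ∫ u in (1 : ℝ)..x, ‖D y P u‖ ^ 2 / u ^ 2 ≤ Q y P := by
  set Y : ℝ := max x (∑ T ∈ P.powerset, N T) with hYd
  have hN : ∀ T ∈ P.powerset, 1 ≤ N T := fun T hT =>
    one_le_N fun p hp => hP p (mem_powerset.1 hT hp)
  have hY : ∀ T ∈ P.powerset, N T ≤ Y := fun T hT =>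
    (single_le_sum (fun U hU => by linarith [hN U hU]) hT).trans (le_max_right _ _)
  obtain ⟨h1, h2⟩ := int_D y hP hY
  refine le_trans ?_ h2
  have hxY : x ≤ Y := le_max_left _ _
  refine intervalIntegral.integral_mono_interval le_rfl hx hxY ?_ h1
  exact Filter.Eventually.of_forall fun u => by positivity

lemma Q_nonneg (y : ℕ → ℂ) {P : Finset ℕ} (hP : ∀ p ∈ P, 0 < p) : 0 ≤ Q y P := by
  have h := int_D_le y hP (x := 1) le_rfl
  rwa [intervalIntegral.integral_same] at h

/-- The twisted Mertens function. -/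
noncomputable def M (x : ℕ → ℂ) (u : ℝ) : ℂ :=
  ∑ n ∈ Icc 1 ⌊u⌋₊, (ArithmeticFunction.moebius n : ℂ) * ∏ p ∈ n.primeFactors, x p

lemma M_eq_D (x : ℕ → ℂ) {P : Finset ℕ} (hP : ∀ p ∈ P, p.Prime) {u : ℝ} (hu : 0 ≤ u)
    (hu2 : ∀ p : ℕ, p.Prime → (p : ℝ) ≤ u → p ∈ P) : M x u = D (fun p => - x p) P u := by
  unfold M D
  rw [← sum_filter]
  have h1 : ∑ n ∈ Icc 1 ⌊u⌋₊, (ArithmeticFunction.moebius n : ℂ) * ∏ p ∈ n.primeFactors, x p =
      ∑ n ∈ (Icc 1 ⌊u⌋₊).filter Squarefree, F (fun p => - x p) n.primeFactors := by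
    rw [sum_filter]
    refine sum_congr rfl fun n hn => ?_
    split_ifs with hs
    · rw [ArithmeticFunction.moebius_apply_of_squarefree hs]
      have h2 : ArithmeticFunction.cardFactors n = n.primeFactors.card := by
        rw [← (ArithmeticFunction.cardDistinctFactors_eq_cardFactors_iff_squarefree
          (by have := (mem_Icc.1 hn).1; omega)).2 hs]
        rfl
      rw [h2]
      unfold F
      rw [prod_neg]
      push_cast
      rfl
    · rw [ArithmeticFunction.moebius_eq_zero_of_not_squarefree hs]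
      simp
  rw [h1]
  have hNc : ∀ T : Finset ℕ, N T = ((∏ p ∈ T, p : ℕ) : ℝ) := fun T => by
    unfold N; push_cast; rfl
  refine sum_nbij' (fun n => n.primeFactors) (fun T => ∏ p ∈ T, p) ?_ ?_ ?_ ?_ ?_
  · intro n hn
    rw [mem_filter, mem_Icc] at hn
    have hle : (n : ℝ) ≤ u := (Nat.le_floor_iff hu).1 hn.1.2
    rw [mem_filter, mem_powerset]
    constructor
    · intro p hp
      refine hu2 p (Nat.prime_of_mem_primeFactors hp) ?_
      have h3 : p ≤ n := Nat.le_of_mem_primeFactors hp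
      have h4 : (p : ℝ) ≤ (n : ℝ) := by exact_mod_cast h3
      linarith
    · rw [hNc, Nat.prod_primeFactors_of_squarefree hn.2]
      exact hle
  · intro T hT
    rw [mem_filter, mem_powerset] at hT
    have hTp : ∀ p ∈ T, p.Prime := fun p hp => hP p (hT.1 hp)
    rw [mem_filter, mem_Icc]
    refine ⟨⟨?_, ?_⟩, ?_⟩
    · exact Nat.one_le_iff_ne_zero.2 (prod_ne_zero_iff.2 fun p hp => (hTp p hp).ne_zero)
    · rw [Nat.le_floor_iff hu, ← hNc]
      exact hT.2
    · refine Finset.squarefree_prod_of_pairwise_isCoprime ?_ fun p hp => (hTp p hp).squarefree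
      intro p hp r hr hpr
      exact Nat.coprime_iff_isRelPrime.1 ((Nat.coprime_primes (hTp p hp) (hTp r hr)).2 hpr)
  · intro n hn
    rw [mem_filter] at hn
    exact Nat.prod_primeFactors_of_squarefree hn.2
  · intro T hT
    rw [mem_filter, mem_powerset] at hT
    exact Nat.primeFactors_prod fun p hp => hP p (hT.1 hp)
  · intro n _
    rfl

end Pool.Agent.X149.RMF
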