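import Mathlib
import Pool.Agent.X149.RMF.Alg

set_option autoImplicit false

namespace Pool.Agent.X149.RMF

open Finset MeasureTheory ProbabilityTheory Filter
open scoped ComplexConjugate ENNReal NNReal

variable {Ω : Type*}

/-- Ville's inequality. -/
lemma ville {m0 : MeasurableSpace Ω} {μ : Measure Ω} [IsProbabilityMeasure μ] {Z : ℕ → Ω → ℝ} {G : Filtration ℕ m0} (hZ : Martingale Z G μ)
    (h0 : ∀ n ω, 0 ≤ Z n ω) (h1 : ∫ ω, Z 0 ω ∂μ ≤ 1) {L : ℝ} (hL : 0 < L) :
    μ {ω | ∃ n, L < Z n ω} ≤ ENNReal.ofReal (1 / L) := by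
  set ε : ℝ≥0 := ⟨L, hL.le⟩ with hε
  set S : ℕ → Set Ω := fun n =>
    {ω | (ε : ℝ) ≤ (range (n + 1)).sup' nonempty_range_add_one fun k => Z k ω} with hS
  have hSn : ∀ n, μ (S n) ≤ ENNReal.ofReal (1 / L) := by
    intro n
    have h2 := maximal_ineq hZ.submartingale (fun n ω => h0 n ω) (ε := ε) n
    have h3 : ENNReal.ofReal (∫ ω in S n, Z n ω ∂μ) ≤ 1 := by
      rw [ENNReal.ofReal_le_one]
      have h4 : ∫ ω in S n, Z n ω ∂μ ≤ ∫ ω, Z n ω ∂μ :=
        setIntegral_le_integral (hZ.integrable n) (Eventually.of_forall fun ω => h0 n ω)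
      have h5 : ∫ ω, Z n ω ∂μ = ∫ ω, Z 0 ω ∂μ := by
        have := hZ.setIntegral_eq (Nat.zero_le n) (MeasurableSet.univ)
        simpa using this.symm
      linarith
    have h6 : (ε : ℝ≥0∞) * μ (S n) ≤ 1 := h2.trans h3
    have h7 : (ε : ℝ≥0∞) = ENNReal.ofReal L := by
      rw [ENNReal.ofReal, hε]
      congr 1
      exact (Real.toNNReal_of_nonneg hL.le).symm
    rw [h7] at h6
    rw [ENNReal.ofReal_div_of_pos hL, ENNReal.ofReal_one]
    rw [ENNReal.le_div_iff_mul_le (Or.inl (by simpa using hL)) (Or.inl ENNReal.ofReal_ne_top)]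
    rwa [mul_comm]
  have hmono : Monotone S := by
    intro a b hab ω hω
    simp only [hS, Set.mem_ofPred_eq] at hω ⊢
    exact hω.trans (sup'_mono _ (range_subset_range.2 (by omega)) _)
  calc μ {ω | ∃ n, L < Z n ω} ≤ μ (⋃ n, S n) := by
        refine measure_mono ?_
        rintro ω ⟨n, hn⟩
        rw [Set.mem_iUnion]
        refine ⟨n, ?_⟩
        simp only [hS, Set.mem_ofPred_eq]
        rw [le_sup'_iff]
        exact ⟨n, by simp, hn.le⟩
    _ = ⨆ n, μ (S n) := hmono.measure_iUnion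
    _ ≤ _ := iSup_le hSn

/-- Pulling out an independent factor. -/
lemma ce {G m0 : MeasurableSpace Ω} {μ : Measure Ω} [IsProbabilityMeasure μ] (hG : G ≤ m0) {Y : Ω → ℂ} (hY : Measurable Y)
    (hind : Indep (MeasurableSpace.comap Y inferInstance) G μ) {h : ℂ → ℝ} (hh : Measurable h)
    {C : ℝ} (hb : ∀ ω, |h (Y ω)| ≤ C) {H : Ω → ℝ} (hH : Measurable[G] H) {K : ℝ}
    (hHb : ∀ ω, |H ω| ≤ K) :
    μ[fun ω => h (Y ω) * H ω | G] =ᵐ[μ] fun ω => (∫ ω, h (Y ω) ∂μ) * H ω := by
  have hHs : StronglyMeasurable[G] H := hH.stronglyMeasurable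
  have hHm : Measurable H := hH.mono hG le_rfl
  have hi1 : Integrable (fun ω => h (Y ω)) μ :=
    Integrable.of_bound (hh.comp hY).aestronglyMeasurable C (Eventually.of_forall fun ω => by
      rw [Real.norm_eq_abs]; exact hb ω)
  have hi2 : Integrable ((fun ω => h (Y ω)) * H) μ :=
    Integrable.of_bound ((hh.comp hY).mul hHm).aestronglyMeasurable (C * K)
      (Eventually.of_forall fun ω => by
        rw [Pi.mul_apply, Real.norm_eq_abs, abs_mul]
        exact mul_le_mul (hb ω) (hHb ω) (abs_nonneg _) ((abs_nonneg _).trans (hb ω)))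
  have h1 := condExp_mul_of_stronglyMeasurable_right (m := G) (μ := μ) hHs hi2 hi1
  have hYc : Measurable[MeasurableSpace.comap Y inferInstance] (fun ω => h (Y ω)) :=
    hh.comp (comap_measurable Y)
  have h2 := condExp_indep_eq (μ := μ) (hY.comap_le) hG hYc.stronglyMeasurable hind
  refine h1.trans ?_
  filter_upwards [h2] with ω hω
  rw [Pi.mul_apply, hω]

/-- All coefficients are bounded by one. -/
lemma F_norm {y : ℕ → ℂ} {T : Finset ℕ} (h : ∀ p ∈ T, ‖y p‖ ≤ 1) : ‖F y T‖ ≤ 1 := by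
  unfold F
  rw [norm_prod]
  exact prod_le_one (fun _ _ => norm_nonneg _) h

lemma term_norm {y : ℕ → ℂ} {T U : Finset ℕ} (hT : ∀ p ∈ T, ‖y p‖ ≤ 1) (hU : ∀ p ∈ U, ‖y p‖ ≤ 1) :
    ‖F y T * conj (F y U)‖ ≤ 1 := by
  rw [norm_mul, RCLike.norm_conj]
  exact mul_le_one₀ (F_norm hT) (norm_nonneg _) (F_norm hU)

lemma Q_bound {y : ℕ → ℂ} {P : Finset ℕ} (hP : ∀ p ∈ P, 0 < p) (h : ∀ p ∈ P, ‖y p‖ ≤ 1) :
    |Q y P| ≤ (P.powerset.card : ℝ) * P.powerset.card := by
  unfold Q
  refine (abs_sum_le_sum_abs _ _).trans ?_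
  rw [← nsmul_eq_mul]
  refine sum_le_card_nsmul _ _ _ fun T hT => ?_
  refine (abs_sum_le_sum_abs _ _).trans ?_
  rw [← mul_one (P.powerset.card : ℝ), ← nsmul_eq_mul]
  refine sum_le_card_nsmul _ _ _ fun U hU => ?_
  have hN : 1 ≤ max (N T) (N U) := le_max_of_le_left (one_le_N fun p hp => hP p (mem_powerset.1 hT hp))
  rw [abs_div, abs_of_pos (by linarith : 0 < max (N T) (N U))]
  rw [div_le_one (by linarith)]
  refine le_trans ?_ hN
  refine (Complex.abs_re_le_norm _).trans ?_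
  exact term_norm (fun p hp => h p (mem_powerset.1 hT hp)) (fun p hp => h p (mem_powerset.1 hU hp))

lemma sum_le_mul {α : Type*} (s : Finset α) (f : α → ℝ) (c : ℝ) (h : ∀ i ∈ s, f i ≤ c) :
    ∑ i ∈ s, f i ≤ (s.card : ℝ) * c := by
  rw [← nsmul_eq_mul]
  exact sum_le_card_nsmul _ _ _ h

lemma B_bound {y : ℕ → ℂ} {p : ℕ} (hp : 0 < p) {P : Finset ℕ} (hP : ∀ p ∈ P, 0 < p)
    (h : ∀ p ∈ P, ‖y p‖ ≤ 1) : ‖B y p P‖ ≤ (P.powerset.card : ℝ) * P.powerset.card := by
  unfold B
  refine (norm_sum_le _ _).trans ?_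
  refine sum_le_mul _ _ _ fun T hT => ?_
  refine (norm_sum_le _ _).trans ?_
  refine (sum_le_mul _ _ 1 fun U hU => ?_).trans_eq (mul_one _)
  have hN : 1 ≤ max ((p : ℝ) * N T) (N U) :=
    le_max_of_le_right (one_le_N fun p hp => hP p (mem_powerset.1 hU hp))
  rw [norm_mul, Complex.norm_real, Real.norm_eq_abs, abs_inv,
    abs_of_pos (by linarith : 0 < max ((p : ℝ) * N T) (N U))]
  have h1 : ‖F y T * conj (F y U)‖ ≤ 1 :=
    term_norm (fun p hp => h p (mem_powerset.1 hT hp)) (fun p hp => h p (mem_powerset.1 hU hp))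
  have h2 : (max ((p : ℝ) * N T) (N U))⁻¹ ≤ 1 := inv_le_one_of_one_le₀ hN
  have h3 : 0 ≤ (max ((p : ℝ) * N T) (N U))⁻¹ := by
    have : 0 < max ((p : ℝ) * N T) (N U) := by linarith
    positivity
  calc _ ≤ (1 : ℝ) * 1 := mul_le_mul h1 h2 h3 (by norm_num)
    _ = 1 := by norm_num

section meas

variable {G : MeasurableSpace Ω} {X : ℕ → Ω → ℂ}

lemma F_meas {T : Finset ℕ} (h : ∀ p ∈ T, Measurable[G] (X p)) :
    Measurable[G] (fun ω => F (fun p => X p ω) T) := by
  unfold F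
  exact Finset.measurable_fun_prod T h

lemma Q_meas {P : Finset ℕ} (h : ∀ p ∈ P, Measurable[G] (X p)) :
    Measurable[G] (fun ω => Q (fun p => X p ω) P) := by
  unfold Q
  refine Finset.measurable_fun_sum _ fun T hT => Finset.measurable_fun_sum _ fun U hU => ?_
  refine Measurable.div_const ?_ _
  refine Complex.measurable_re.comp ?_
  refine (F_meas fun p hp => h p (mem_powerset.1 hT hp)).mul ?_
  exact Complex.continuous_conj.measurable.comp (F_meas fun p hp => h p (mem_powerset.1 hU hp))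

lemma B_meas {P : Finset ℕ} (q : ℕ) (h : ∀ p ∈ P, Measurable[G] (X p)) :
    Measurable[G] (fun ω => B (fun p => X p ω) q P) := by
  unfold B
  refine Finset.measurable_fun_sum _ fun T hT => Finset.measurable_fun_sum _ fun U hU => ?_
  refine Measurable.mul_const ?_ _
  refine (F_meas fun p hp => h p (mem_powerset.1 hT hp)).mul ?_
  exact Complex.continuous_conj.measurable.comp (F_meas fun p hp => h p (mem_powerset.1 hU hp))

end meas

/-- The conditional expectation of the quadratic form after a new prime is added. -/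
lemma step {G m0 : MeasurableSpace Ω} {μ : Measure Ω} [IsProbabilityMeasure μ] (hG : G ≤ m0) {X : ℕ → Ω → ℂ} {q : ℕ}
    (hq : 0 < q) {P : Finset ℕ} (hqP : q ∉ P) (hP : ∀ p ∈ P, 0 < p) (hX : Measurable (X q))
    (hPm : ∀ p ∈ P, Measurable[G] (X p))
    (hind : Indep (MeasurableSpace.comap (X q) inferInstance) G μ)
    (hb : ∀ p ∈ insert q P, ∀ ω, ‖X p ω‖ ≤ 1) (h0 : ∫ ω, X q ω ∂μ = 0) :
    μ[fun ω => Q (fun p => X p ω) (insert q P) | G] =ᵐ[μ]
      fun ω => (1 + (∫ ω, ‖X q ω‖ ^ 2 ∂μ) / q) * Q (fun p => X p ω) P := by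
  have hq' : (0 : ℝ) < q := by exact_mod_cast hq
  have hbq : ∀ ω, ‖X q ω‖ ≤ 1 := fun ω => hb q (mem_insert_self _ _) ω
  have hbP : ∀ p ∈ P, ∀ ω, ‖X p ω‖ ≤ 1 := fun p hp ω => hb p (mem_insert_of_mem hp) ω
  have hXi : Integrable (X q) μ := Integrable.of_bound hX.aestronglyMeasurable 1
    (Eventually.of_forall hbq)
  set K : ℝ := (P.powerset.card : ℝ) * P.powerset.card with hK
  have hQm : Measurable[G] (fun ω => Q (fun p => X p ω) P) := Q_meas hPm
  have hQb : ∀ ω, |Q (fun p => X p ω) P| ≤ K := fun ω => Q_bound hP fun p hp => hbP p hp ω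
  have hBm : Measurable[G] (fun ω => B (fun p => X p ω) q P) := B_meas q hPm
  have hBb : ∀ ω, ‖B (fun p => X p ω) q P‖ ≤ K := fun ω => B_bound hq hP fun p hp => hbP p hp ω
  -- three parts
  have e1 := ce (μ := μ) hG hX hind (h := fun z => 1 + ‖z‖ ^ 2 / q) (by fun_prop) (C := 1 + 1 / q)
    (fun ω => by
      have h1 : 0 ≤ ‖X q ω‖ ^ 2 / q := by positivity
      rw [abs_of_nonneg (by linarith)]
      have h2 : ‖X q ω‖ ^ 2 / q ≤ 1 / q := by
        refine div_le_div_of_nonneg_right ?_ hq'.le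
        exact pow_le_one₀ (norm_nonneg _) (hbq ω)
      linarith) hQm hQb
  have e2 := ce (μ := μ) hG hX hind (h := fun z => 2 * z.re) (by fun_prop) (C := 2)
    (fun ω => by
      rw [abs_mul, abs_two]
      have := (Complex.abs_re_le_norm (X q ω)).trans (hbq ω)
      linarith) (H := fun ω => (B (fun p => X p ω) q P).re) (Complex.measurable_re.comp hBm) (K := K)
      (fun ω => (Complex.abs_re_le_norm _).trans (hBb ω))
  have e3 := ce (μ := μ) hG hX hind (h := fun z => -(2 * z.im)) (by fun_prop) (C := 2)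
    (fun ω => by
      rw [abs_neg, abs_mul, abs_two]
      have := (Complex.abs_im_le_norm (X q ω)).trans (hbq ω)
      linarith) (H := fun ω => (B (fun p => X p ω) q P).im) (Complex.measurable_im.comp hBm) (K := K)
      (fun ω => (Complex.abs_im_le_norm _).trans (hBb ω))
  have hXn : Integrable (fun ω => ‖X q ω‖ ^ 2) μ :=
    Integrable.of_bound (by fun_prop) 1 (Eventually.of_forall fun ω => by
      rw [Real.norm_eq_abs, abs_of_nonneg (by positivity)]
      exact pow_le_one₀ (norm_nonneg _) (hbq ω))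
  have c1 : ∫ ω, (1 + ‖X q ω‖ ^ 2 / q) ∂μ = 1 + (∫ ω, ‖X q ω‖ ^ 2 ∂μ) / q := by
    rw [integral_add (integrable_const _) (hXn.div_const _), integral_div]
    simp
  have hre : ∫ ω, (X q ω).re ∂μ = 0 := by
    have := integral_re hXi
    simp only [RCLike.re_to_complex] at this
    rw [this, h0]; simp
  have him : ∫ ω, (X q ω).im ∂μ = 0 := by
    have := integral_im hXi
    simp only [RCLike.im_to_complex] at this
    rw [this, h0]; simp
  have c2 : ∫ ω, 2 * (X q ω).re ∂μ = 0 := by rw [integral_const_mul, hre, mul_zero]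
  have c3 : ∫ ω, -(2 * (X q ω).im) ∂μ = 0 := by
    rw [integral_neg, integral_const_mul, him, mul_zero, neg_zero]
  have hdec : (fun ω => Q (fun p => X p ω) (insert q P)) =
      ((fun ω => (1 + ‖X q ω‖ ^ 2 / q) * Q (fun p => X p ω) P) +
        (fun ω => 2 * (X q ω).re * (B (fun p => X p ω) q P).re)) +
        (fun ω => -(2 * (X q ω).im) * (B (fun p => X p ω) q P).im) := by
    funext ω
    simp only [Pi.add_apply]
    rw [Q_insert _ hqP hq, Complex.mul_re]
    ring
  have hQm' : Measurable (fun ω => Q (fun p => X p ω) P) := hQm.mono hG le_rfl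
  have hBm' : Measurable (fun ω => B (fun p => X p ω) q P) := hBm.mono hG le_rfl
  have i1 : Integrable (fun ω => (1 + ‖X q ω‖ ^ 2 / q) * Q (fun p => X p ω) P) μ := by
    refine Integrable.of_bound (by fun_prop) ((1 + 1 / q) * K) (Eventually.of_forall fun ω => ?_)
    rw [Real.norm_eq_abs, abs_mul]
    have h1 : 0 ≤ ‖X q ω‖ ^ 2 / q := by positivity
    have h2 : ‖X q ω‖ ^ 2 / q ≤ 1 / q := by
      refine div_le_div_of_nonneg_right ?_ hq'.le
      exact pow_le_one₀ (norm_nonneg _) (hbq ω)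
    refine mul_le_mul ?_ (hQb ω) (abs_nonneg _) (by positivity)
    rw [abs_of_nonneg (by linarith)]
    linarith
  have i2 : Integrable (fun ω => 2 * (X q ω).re * (B (fun p => X p ω) q P).re) μ := by
    refine Integrable.of_bound (by fun_prop) (2 * K) (Eventually.of_forall fun ω => ?_)
    rw [Real.norm_eq_abs, abs_mul]
    refine mul_le_mul ?_ ((Complex.abs_re_le_norm _).trans (hBb ω)) (abs_nonneg _) (by norm_num)
    rw [abs_mul, abs_two]
    have := (Complex.abs_re_le_norm (X q ω)).trans (hbq ω)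
    linarith
  have i3 : Integrable (fun ω => -(2 * (X q ω).im) * (B (fun p => X p ω) q P).im) μ := by
    refine Integrable.of_bound (by fun_prop) (2 * K) (Eventually.of_forall fun ω => ?_)
    rw [Real.norm_eq_abs, abs_mul]
    refine mul_le_mul ?_ ((Complex.abs_im_le_norm _).trans (hBb ω)) (abs_nonneg _) (by norm_num)
    rw [abs_neg, abs_mul, abs_two]
    have := (Complex.abs_im_le_norm (X q ω)).trans (hbq ω)
    linarith
  rw [hdec]
  have s1 := condExp_add (i1.add i2) i3 G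
  have s2 := condExp_add i1 i2 G
  filter_upwards [s1, s2, e1, e2, e3] with ω h1 h2 h3 h4 h5
  rw [h1, Pi.add_apply, h2, Pi.add_apply, h3, h4, h5, c1, c2, c3]
  ring

end Pool.Agent.X149.RMF
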