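import Mathlib
import Pool.Agent.X149.RMF.Mart
import Pool.Agent.Erdos456.Mertens

set_option autoImplicit false

namespace Pool.Agent.X149.RMF

open Finset MeasureTheory ProbabilityTheory Filter
open scoped ComplexConjugate ENNReal NNReal

/-- The `i`-th prime. -/
noncomputable def q (i : ℕ) : ℕ := Nat.nth Nat.Prime i

lemma q_prime (i : ℕ) : (q i).Prime := Nat.prime_nth_prime i

lemma q_inj {i j : ℕ} (h : q i = q j) : i = j :=
  Nat.nth_injective Nat.infinite_setOf_prime h

/-- The first `j` primes. -/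
noncomputable def P (j : ℕ) : Finset ℕ := (range j).image q

lemma P_zero : P 0 = ∅ := by simp [P]

lemma P_succ (j : ℕ) : P (j + 1) = insert (q j) (P j) := by
  unfold P; rw [range_add_one, image_insert]

lemma q_notMem (j : ℕ) : q j ∉ P j := by
  unfold P
  rw [mem_image]
  rintro ⟨i, hi, h⟩
  rw [mem_range] at hi
  have := q_inj h
  omega

lemma P_prime {j p : ℕ} (h : p ∈ P j) : p.Prime := by
  unfold P at h
  rw [mem_image] at h
  obtain ⟨i, _, rfl⟩ := h
  exact q_prime i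

lemma P_eq (n : ℕ) : P (Nat.count Nat.Prime (n + 1)) = (Icc 1 n).filter Nat.Prime := by
  ext p
  unfold P q
  rw [mem_image, mem_filter, mem_Icc]
  constructor
  · rintro ⟨i, hi, rfl⟩
    rw [mem_range] at hi
    have h1 := Nat.nth_lt_of_lt_count hi
    have h2 := Nat.prime_nth_prime i
    exact ⟨⟨h2.one_lt.le, by omega⟩, h2⟩
  · rintro ⟨⟨h1, h2⟩, h3⟩
    refine ⟨Nat.count Nat.Prime p, ?_, Nat.nth_count h3⟩
    rw [mem_range]
    exact Nat.count_strict_mono h3 (by omega)

lemma Q_empty (y : ℕ → ℂ) : Q y ∅ = 1 := by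
  unfold Q F N
  simp

section main

variable {Ω : Type*} [m0 : MeasurableSpace Ω] {μ : Measure Ω} [IsProbabilityMeasure μ]
  {X : ℕ → Ω → ℂ}

/-- The normalising product. -/
noncomputable def DD (μ : Measure Ω) (X : ℕ → Ω → ℂ) (S : Finset ℕ) : ℝ :=
  ∏ p ∈ S, (1 + (∫ ω, ‖X p ω‖ ^ 2 ∂μ) / p)

lemma v_nonneg (p : ℕ) : 0 ≤ ∫ ω, ‖X p ω‖ ^ 2 ∂μ := integral_nonneg fun ω => by positivity

lemma DD_one_le (S : Finset ℕ) : 1 ≤ DD μ X S := by
  unfold DD
  calc (1 : ℝ) = ∏ p ∈ S, (1 : ℝ) := by simp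
    _ ≤ _ := prod_le_prod (fun _ _ => by norm_num) fun p _ => by
      have := div_nonneg (v_nonneg (μ := μ) (X := X) p) (Nat.cast_nonneg p)
      linarith

lemma DD_insert {S : Finset ℕ} {p : ℕ} (h : p ∉ S) :
    DD μ X (insert p S) = (1 + (∫ ω, ‖X p ω‖ ^ 2 ∂μ) / p) * DD μ X S := by
  unfold DD; rw [prod_insert h]

/-- The martingale. -/
noncomputable def W (μ : Measure Ω) (X : ℕ → Ω → ℂ) (j : ℕ) (ω : Ω) : ℝ :=
  (DD μ X (P (j + 1)))⁻¹ * Q (fun p => X p ω) (P (j + 1))

variable (hm : ∀ p : ℕ, p.Prime → Measurable (X p))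
  (hb : ∀ p : ℕ, p.Prime → ∀ ω, ‖X p ω‖ ≤ 1)
  (h0 : ∀ p : ℕ, p.Prime → ∫ ω, X p ω ∂μ = 0)
  (hi : iIndepFun (fun i : ℕ => X (q i)) μ)

include hm hb h0 hi

lemma W_mart : Martingale (W μ X)
    (Filtration.natural (fun i : ℕ => X (q i)) fun i => (hm _ (q_prime i)).stronglyMeasurable) μ := by
  set G := Filtration.natural (fun i : ℕ => X (q i)) fun i => (hm _ (q_prime i)).stronglyMeasurable
    with hG
  have hXm : ∀ j, ∀ p ∈ P (j + 1), Measurable[G j] (X p) := by
    intro j p hp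
    unfold P at hp
    rw [mem_image] at hp
    obtain ⟨i, hij, rfl⟩ := hp
    rw [mem_range] at hij
    have h1 := (Filtration.stronglyAdapted_natural
      (fun i => (hm _ (q_prime i)).stronglyMeasurable) (u := fun i : ℕ => X (q i))) i
    exact (h1.measurable).mono (G.mono (by omega)) le_rfl
  have hQm : ∀ j, Measurable (fun ω => Q (fun p => X p ω) (P j)) := fun j =>
    Q_meas fun p hp => hm p (P_prime hp)
  have hWi : ∀ j, Integrable (fun ω => Q (fun p => X p ω) (P j)) μ := fun j =>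
    Integrable.of_bound (hQm j).aestronglyMeasurable _ (Eventually.of_forall fun ω => by
      rw [Real.norm_eq_abs]
      exact Q_bound (fun p hp => (P_prime hp).pos) fun p hp => hb p (P_prime hp) ω)
  refine martingale_nat ?_ ?_ ?_
  · intro j
    unfold W
    exact ((Q_meas (hXm j)).const_mul _).stronglyMeasurable
  · intro j
    unfold W
    exact (hWi (j + 1)).const_mul _
  · intro j
    have hs := step (μ := μ) (G.le j) (X := X) (q := q (j + 1)) (q_prime _).pos (q_notMem (j + 1))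
      (fun p hp => (P_prime hp).pos) (hm _ (q_prime _)) (hXm j)
      (hi.indep_comap_natural_of_lt (fun i => (hm _ (q_prime i)).stronglyMeasurable)
        (Nat.lt_succ_self j))
      (fun p hp => by rw [← P_succ] at hp; exact hb p (P_prime hp)) (h0 _ (q_prime _))
    rw [← P_succ] at hs
    have h1 : W μ X (j + 1) = (DD μ X (P (j + 1 + 1)))⁻¹ •
        (fun ω => Q (fun p => X p ω) (P (j + 1 + 1))) := by
      funext ω
      simp [W]
    rw [h1]
    have h2 := condExp_smul (μ := μ) (DD μ X (P (j + 1 + 1)))⁻¹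
      (fun ω => Q (fun p => X p ω) (P (j + 1 + 1))) (G j)
    filter_upwards [hs, h2] with ω h3 h4
    rw [h4, Pi.smul_apply, h3, smul_eq_mul, P_succ (j + 1), DD_insert (q_notMem (j + 1))]
    unfold W
    have h5 : 0 < 1 + (∫ ω, ‖X (q (j + 1)) ω‖ ^ 2 ∂μ) / (q (j + 1) : ℝ) := by
      have := div_nonneg (v_nonneg (μ := μ) (X := X) (q (j + 1))) (Nat.cast_nonneg (q (j + 1)))
      linarith
    have h6 : 0 < DD μ X (P (j + 1)) := by
      have := DD_one_le (μ := μ) (X := X) (P (j + 1))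
      linarith
    field_simp

lemma W_zero : ∫ ω, W μ X 0 ω ∂μ ≤ 1 := by
  have hs := step (μ := μ) (G := ⊥) bot_le (X := X) (q := q 0) (q_prime _).pos (q_notMem 0)
      (fun p hp => (P_prime hp).pos) (hm _ (q_prime _)) (fun p hp => by
        rw [P_zero] at hp; exact absurd hp (notMem_empty p))
      (indep_bot_right _)
      (fun p hp => by rw [← P_succ] at hp; exact hb p (P_prime hp)) (h0 _ (q_prime _))
  rw [← P_succ, P_zero] at hs
  have h1 := integral_condExp (μ := μ) (m := ⊥) (f := fun ω => Q (fun p => X p ω) (P (0 + 1))) bot_le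
  have h2 : ∫ ω, Q (fun p => X p ω) (P (0 + 1)) ∂μ = 1 + (∫ ω, ‖X (q 0) ω‖ ^ 2 ∂μ) / (q 0 : ℝ) := by
    rw [← h1, integral_congr_ae hs]
    simp only [Q_empty, mul_one]
    simp
  unfold W
  rw [integral_const_mul, h2, P_succ, P_zero, DD_insert (notMem_empty _)]
  have h5 : 0 < 1 + (∫ ω, ‖X (q 0) ω‖ ^ 2 ∂μ) / (q 0 : ℝ) := by
    have := div_nonneg (v_nonneg (μ := μ) (X := X) (q 0)) (Nat.cast_nonneg (q 0))
    linarith
  simp only [DD, prod_empty, mul_one]
  rw [inv_mul_cancel₀ h5.ne']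

/-- The maximal inequality for the quadratic forms. -/
lemma W_max {L : ℝ} (hL : 0 < L) : μ {ω | ∃ j, L < W μ X j ω} ≤ ENNReal.ofReal (1 / L) := by
  refine ville (W_mart hm hb h0 hi) (fun j ω => ?_) (W_zero hm hb h0 hi) hL
  unfold W
  have h6 := DD_one_le (μ := μ) (X := X) (P (j + 1))
  have h7 := Q_nonneg (fun p => X p ω) (P := P (j + 1)) fun p hp => (P_prime hp).pos
  positivity

end main

end Pool.Agent.X149.RMF
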