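import Mathlib
import Pool.Agent.X149.RMF.Main

set_option autoImplicit false

namespace Pool.Agent.X149.RMF

open Finset MeasureTheory ProbabilityTheory Filter
open scoped ComplexConjugate ENNReal NNReal

/-- The mean square integral. -/
noncomputable def I (x : ℕ → ℂ) (t : ℝ) : ℝ := ∫ u in (1 : ℝ)..t, (‖M x u‖ / u) ^ 2

/-- The primes up to `t`. -/
noncomputable def PR (t : ℝ) : Finset ℕ := (Icc 1 ⌊t⌋₊).filter Nat.Prime

lemma I_le (x : ℕ → ℂ) {t : ℝ} (ht : 1 ≤ t) : I x t ≤ Q (fun p => - x p) (PR t) := by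
  have h1 : I x t = ∫ u in (1 : ℝ)..t, ‖D (fun p => - x p) (PR t) u‖ ^ 2 / u ^ 2 := by
    unfold I
    refine intervalIntegral.integral_congr fun u hu => ?_
    rw [Set.uIcc_of_le ht] at hu
    have hM : M x u = D (fun p => - x p) (PR t) u := by
      refine M_eq_D x (fun p hp => (mem_filter.1 hp).2) (by linarith [hu.1]) fun p hp hpu => ?_
      rw [mem_filter, mem_Icc]
      exact ⟨⟨hp.one_lt.le, Nat.le_floor (hpu.trans hu.2)⟩, hp⟩
    simp only [hM, div_pow]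
  rw [h1]
  exact int_D_le _ (fun p hp => (mem_filter.1 hp).2.pos) ht

lemma I_nonneg (x : ℕ → ℂ) {t : ℝ} (ht : 1 ≤ t) : 0 ≤ I x t := by
  unfold I
  exact intervalIntegral.integral_nonneg ht fun u _ => by positivity

/-- Mertens' upper bound. -/
lemma mert : ∃ C : ℝ, 0 < C ∧ ∀ t : ℝ, 2 ≤ t → ∏ p ∈ PR t, (1 + 1 / (p : ℝ)) ≤ C * Real.log t := by
  obtain ⟨C, hC⟩ := Pool.Agent.Erdos456.Mert.mertens_inv
  have hl2 : (0 : ℝ) < Real.log 2 := Real.log_pos (by norm_num)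
  refine ⟨Real.exp C + 3 / Real.log 2, by positivity, fun t ht => ?_⟩
  have hn2 : 2 ≤ ⌊t⌋₊ := Nat.le_floor (by exact_mod_cast ht)
  have hle : ((⌊t⌋₊ : ℕ) : ℝ) ≤ t := Nat.floor_le (by linarith)
  have hlt : Real.log 2 ≤ Real.log t := Real.log_le_log (by norm_num) ht
  have hlt0 : 0 < Real.log t := hl2.trans_le hlt
  have h3 : 0 ≤ 3 / Real.log 2 * Real.log t := by positivity
  rcases hn2.eq_or_lt with h | h
  · have h1 : ∏ p ∈ PR t, (1 + 1 / (p : ℝ)) ≤ 3 := by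
      unfold PR
      rw [← h]
      have h2 : (Icc 1 2).filter Nat.Prime = {2} := by decide
      rw [h2, prod_singleton]
      norm_num
    have h4 : 3 ≤ 3 / Real.log 2 * Real.log t := by
      rw [div_mul_eq_mul_div, le_div_iff₀ hl2]
      nlinarith
    have h5 : 0 ≤ Real.exp C * Real.log t := by positivity
    linarith
  · have h1 := (abs_le.1 (hC ⌊t⌋₊ (by omega))).2
    have hfl : (3 : ℝ) ≤ ((⌊t⌋₊ : ℕ) : ℝ) := by exact_mod_cast h
    have hlog : 0 < Real.log ((⌊t⌋₊ : ℕ) : ℝ) := Real.log_pos (by linarith)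
    have h2 : ∏ p ∈ PR t, (1 + 1 / (p : ℝ)) ≤ Real.exp C * Real.log ((⌊t⌋₊ : ℕ) : ℝ) := by
      calc ∏ p ∈ PR t, (1 + 1 / (p : ℝ)) ≤ ∏ p ∈ PR t, Real.exp (1 / (p : ℝ)) := by
            refine prod_le_prod (fun p _ => by positivity) fun p _ => ?_
            have := Real.add_one_le_exp (1 / (p : ℝ))
            linarith
        _ = Real.exp (∑ p ∈ PR t, 1 / (p : ℝ)) := (Real.exp_sum _ _).symm
        _ ≤ Real.exp (C + Real.log (Real.log ((⌊t⌋₊ : ℕ) : ℝ))) := by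
            refine Real.exp_le_exp.2 ?_
            unfold PR
            linarith
        _ = _ := by rw [Real.exp_add, Real.exp_log hlog]
    have h6 : Real.log ((⌊t⌋₊ : ℕ) : ℝ) ≤ Real.log t := Real.log_le_log (by linarith) hle
    have h7 := mul_le_mul_of_nonneg_left h6 (Real.exp_pos C).le
    linarith

section main

variable {Ω : Type*} [m0 : MeasurableSpace Ω] {μ : Measure Ω} [IsProbabilityMeasure μ]
  {X : ℕ → Ω → ℂ}

theorem main_max (hm : ∀ p : ℕ, p.Prime → Measurable (X p))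
    (hb : ∀ p : ℕ, p.Prime → ∀ ω, ‖X p ω‖ ≤ 1)
    (h0 : ∀ p : ℕ, p.Prime → ∫ ω, X p ω ∂μ = 0)
    (hi : iIndepFun (fun p : Nat.Primes => X p) μ) {L : ℝ} (hL : 0 < L) :
    μ {ω | ∃ t : ℝ, 1 ≤ t ∧ L * ∏ p ∈ PR t, (1 + (∫ ω, ‖X p ω‖ ^ 2 ∂μ) / p) <
      I (fun p => X p ω) t} ≤ ENNReal.ofReal (1 / L) := by
  by_cases hL1 : L < 1
  · refine prob_le_one.trans ?_
    rw [ENNReal.one_le_ofReal, le_div_iff₀ hL]
    linarith
  push Not at hL1
  set Y : ℕ → Ω → ℂ := fun p ω => - X p ω with hY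
  have hYm : ∀ p : ℕ, p.Prime → Measurable (Y p) := fun p hp => (hm p hp).neg
  have hYb : ∀ p : ℕ, p.Prime → ∀ ω, ‖Y p ω‖ ≤ 1 := fun p hp ω => by
    simp only [hY, norm_neg]; exact hb p hp ω
  have hY0 : ∀ p : ℕ, p.Prime → ∫ ω, Y p ω ∂μ = 0 := fun p hp => by
    simp only [hY, integral_neg, h0 p hp, neg_zero]
  have hYi : iIndepFun (fun i : ℕ => Y (q i)) μ := by
    have h1 := hi.precomp (g := fun i : ℕ => (⟨q i, q_prime i⟩ : Nat.Primes)) (by
      intro i j hij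
      exact q_inj (congrArg Subtype.val hij))
    exact h1.comp (fun _ => fun z => - z) fun _ => measurable_neg
  refine (measure_mono ?_).trans (W_max hYm hYb hY0 hYi hL)
  rintro ω ⟨t, ht, hlt⟩
  have hPR : PR t = P (Nat.count Nat.Prime (⌊t⌋₊ + 1)) := (P_eq _).symm
  have h1 := I_le (fun p => X p ω) ht
  have hDD : DD μ Y (PR t) = ∏ p ∈ PR t, (1 + (∫ ω, ‖X p ω‖ ^ 2 ∂μ) / p) := by
    unfold DD
    simp only [hY, norm_neg]
  rw [← hDD] at hlt
  have h2 : L * DD μ Y (PR t) < Q (fun p => Y p ω) (PR t) := hlt.trans_le h1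
  have h3 := DD_one_le (μ := μ) (X := Y) (PR t)
  rcases Nat.eq_zero_or_pos (Nat.count Nat.Prime (⌊t⌋₊ + 1)) with hz | hpos
  · rw [hPR, hz, P_zero, Q_empty] at h2
    have : DD μ Y ∅ = 1 := by simp [DD]
    rw [this] at h2
    linarith
  · refine ⟨Nat.count Nat.Prime (⌊t⌋₊ + 1) - 1, ?_⟩
    unfold W
    rw [Nat.sub_add_cancel hpos, ← hPR]
    have h4 : 0 < DD μ Y (PR t) := by linarith
    rw [inv_mul_eq_div, lt_div_iff₀ h4]
    exact h2

theorem main_ae (hm : ∀ p : ℕ, p.Prime → Measurable (X p))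
    (hb : ∀ p : ℕ, p.Prime → ∀ ω, ‖X p ω‖ ≤ 1)
    (h0 : ∀ p : ℕ, p.Prime → ∫ ω, X p ω ∂μ = 0)
    (hi : iIndepFun (fun p : Nat.Primes => X p) μ) :
    ∀ᵐ ω ∂μ, ∃ C : ℝ, (∀ t : ℝ, 1 ≤ t → I (fun p => X p ω) t ≤
      C * ∏ p ∈ PR t, (1 + (∫ ω, ‖X p ω‖ ^ 2 ∂μ) / p)) ∧
      ∀ t : ℝ, 2 ≤ t → I (fun p => X p ω) t ≤ C * Real.log t := by
  obtain ⟨K, hK, hmert⟩ := mert
  have h1 : μ {ω | ∀ n : ℕ, ∃ t : ℝ, 1 ≤ t ∧ ((n : ℝ) + 1) * ∏ p ∈ PR t,
      (1 + (∫ ω, ‖X p ω‖ ^ 2 ∂μ) / p) < I (fun p => X p ω) t} = 0 := by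
    refine le_antisymm ?_ bot_le
    refine ge_of_tendsto' (f := fun n : ℕ => ENNReal.ofReal (1 / ((n : ℝ) + 1))) (x := atTop) ?_ ?_
    · have h1 := tendsto_one_div_add_atTop_nhds_zero_nat (𝕜 := ℝ)
      have := ENNReal.tendsto_ofReal h1
      simpa using this
    · intro n
      refine (measure_mono ?_).trans (main_max hm hb h0 hi (L := (n : ℝ) + 1) (by positivity))
      intro ω hω
      exact hω n
  rw [ae_iff]
  refine measure_mono_null ?_ h1
  intro ω hω n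
  by_contra hcon
  apply hω
  push Not at hcon
  refine ⟨max ((n : ℝ) + 1) (((n : ℝ) + 1) * K), fun t ht => ?_, fun t ht => ?_⟩
  · refine (hcon t ht).trans (mul_le_mul_of_nonneg_right (le_max_left _ _) ?_)
    exact (zero_le_one.trans (DD_one_le (μ := μ) (X := X) (PR t)))
  · refine (hcon t (by linarith)).trans ?_
    have h2 : ∏ p ∈ PR t, (1 + (∫ ω, ‖X p ω‖ ^ 2 ∂μ) / p) ≤ ∏ p ∈ PR t, (1 + 1 / (p : ℝ)) := by
      refine prod_le_prod (fun p _ => ?_) fun p hp => ?_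
      · have := div_nonneg (v_nonneg (μ := μ) (X := X) p) (Nat.cast_nonneg p)
        linarith
      · have hpp := (mem_filter.1 hp).2
        have h3 : ∫ ω, ‖X p ω‖ ^ 2 ∂μ ≤ 1 := by
          calc ∫ ω, ‖X p ω‖ ^ 2 ∂μ ≤ ∫ _ω, (1 : ℝ) ∂μ := by
                refine integral_mono_of_nonneg (Eventually.of_forall fun ω => by positivity)
                  (integrable_const _) (Eventually.of_forall fun ω => ?_)
                exact pow_le_one₀ (norm_nonneg _) (hb p hpp ω)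
            _ = 1 := by simp
        have := div_le_div_of_nonneg_right h3 (Nat.cast_nonneg (α := ℝ) p)
        linarith
    have hlog : 0 < Real.log t := Real.log_pos (by linarith)
    calc ((n : ℝ) + 1) * ∏ p ∈ PR t, (1 + (∫ ω, ‖X p ω‖ ^ 2 ∂μ) / p)
        ≤ ((n : ℝ) + 1) * (K * Real.log t) := by
          refine mul_le_mul_of_nonneg_left (h2.trans (hmert t ht)) (by positivity)
      _ = (((n : ℝ) + 1) * K) * Real.log t := by ring
      _ ≤ _ := mul_le_mul_of_nonneg_right (le_max_right _ _) hlog.le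

end main

end Pool.Agent.X149.RMF
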